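import Mathlib
import Pool.Agent.W560.HP.Stm

/-! HP-BASE3: three consecutive nodes. -/

set_option autoImplicit false

namespace Pool.Agent.W803.HP

open Finset Polynomial
open W560.Sep (dt)
open W560.HP

theorem cXC0 {K : Type*} [Field K] (p : K[X]) (a : K) :
    (p * (X + C a)).coeff 0 = p.coeff 0 * a := by
  simp [mul_add]

theorem cXCs {K : Type*} [Field K] (p : K[X]) (a : K) (n : ℕ) :
    (p * (X + C a)).coeff (n + 1) = p.coeff n + p.coeff (n + 1) * a := by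
  simp [mul_add]

theorem cX0 {K : Type*} [Field K] (p : K[X]) : (p * (X + C 0)).coeff 0 = 0 := by
  rw [cXC0, mul_zero]

theorem cXs {K : Type*} [Field K] (p : K[X]) (n : ℕ) :
    (p * (X + C 0)).coeff (n + 1) = p.coeff n := by
  rw [cXCs, mul_zero, add_zero]

theorem base3 : S_BASE3 := by
  intro K _ _ m a σ hm s0 s1 s2
  obtain ⟨m, rfl⟩ : ∃ n, m = n + 2 := ⟨m - 2, by omega⟩
  have h2 : (2 : K) ≠ 0 := two_ne_zero
  have hm1 : (m : K) + 1 ≠ 0 := by exact_mod_cast Nat.succ_ne_zero m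
  have hm2 : (m : K) + 1 + 1 ≠ 0 := by exact_mod_cast Nat.succ_ne_zero (m + 1)
  have hp : (2 : K) ^ m ≠ 0 := pow_ne_zero _ h2
  -- coefficients of powers
  have c0 : ∀ (a : K) (k : ℕ), ((X + C a) ^ k).coeff 0 = a ^ k := by
    intro a k; rw [coeff_X_add_C_pow]; simp
  have c1 : ∀ (a : K) (k : ℕ), ((X + C a) ^ (k + 1)).coeff 1 = a ^ k * (k + 1) := by
    intro a k; rw [coeff_X_add_C_pow]; simp
  have c2 : ∀ (a : K) (k : ℕ), ((X + C a) ^ (k + 2)).coeff 2 = a ^ k * ((k + 2) * (k + 1) / 2) := by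
    intro a k; rw [coeff_X_add_C_pow, Nat.cast_choose_two]
    simp only [Nat.add_sub_cancel]
    push_cast; ring
  have c2' : ∀ (k : ℕ), ((X + C (1 : K)) ^ (k + 1)).coeff 2 = (((k : K) + 1) * k / 2) := by
    intro k; rw [coeff_X_add_C_pow, Nat.cast_choose_two]
    push_cast; simp
  let r : ℕ → K := fun i => if i = a then 1 else if i = a + 1 then 1 else if i = a + 2 then 2 else 0
  let τ : ℕ → K := fun i => if i = a then 2 else if i = a + 1 then -1 else
    if i = a + 2 then - (1 / 2) ^ (m + 2) else 0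
  have r0 : r a = 1 := by simp [r]
  have r1 : r (a + 1) = 1 := by simp [r]
  have r2 : r (a + 2) = 2 := by simp [r]
  have r3 : r (a + 3) = 0 := by simp [r]
  have t0 : τ a = 2 := by simp [τ]
  have t1 : τ (a + 1) = -1 := by simp [τ]
  have t2 : τ (a + 2) = - (1 / 2) ^ (m + 2) := by simp [τ]
  have G0 : g (m + 2) r a = (X + C 1) ^ (m + 1 + 1) * (X + C 1) := by
    unfold g; rw [r0, r1]
  have G1 : g (m + 2) r (a + 1) = (X + C 1) ^ (m + 1 + 1) * (X + C 2) := by
    unfold g; rw [r1, show a + 1 + 1 = a + 2 from rfl, r2]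
  have G2 : g (m + 2) r (a + 2) = (X + C 2) ^ (m + 1 + 1) * (X + C 0) := by
    unfold g; rw [r2, show a + 2 + 1 = a + 3 from rfl, r3]
  have H0 : h (m + 2) r τ a = C (((m + 1 : ℕ) + 1 : K) * 2) * (X + C 1) ^ (m + 1) * (X + C 1) := by
    unfold h
    have e : (if a = 0 then (0 : K[X]) else C (τ (a - 1)) * (X + C (r (a - 1))) ^ (m + 2)) = 0 := by
      by_cases ha : a = 0
      · rw [if_pos ha]
      · rw [if_neg ha]
        have : τ (a - 1) = 0 := by
          have n1 : ¬ a - 1 = a := by omega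
          have n2 : ¬ a - 1 = a + 1 := by omega
          have n3 : ¬ a - 1 = a + 2 := by omega
          simp only [τ, n1, n2, n3, if_false]
        rw [this]; simp
    rw [e, add_zero, r0, r1, t0]
    push_cast
    rw [show (m : K) + 2 = m + 1 + 1 by ring]
  have H1 : h (m + 2) r τ (a + 1) = C (((m + 1 : ℕ) + 1 : K) * (-1)) * (X + C 1) ^ (m + 1) *
      (X + C 2) + C 2 * (X + C 1) ^ (m + 1 + 1) := by
    unfold h
    rw [if_neg (Nat.succ_ne_zero a), show a + 1 + 1 = a + 2 from rfl, Nat.add_sub_cancel, r1, r2,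
      t1, t0, r0, show m + 2 - 1 = m + 1 by omega]
    push_cast
    rw [show (m : K) + 2 = m + 1 + 1 by ring]
  have H2 : h (m + 2) r τ (a + 2) = C (((m + 1 : ℕ) + 1 : K) * (- (1 / 2) ^ (m + 2))) *
      (X + C 2) ^ (m + 1) * (X + C 0) + C (-1) * (X + C 1) ^ (m + 1 + 1) := by
    unfold h
    rw [if_neg (by omega), show a + 2 + 1 = a + 3 from rfl, show a + 2 - 1 = a + 1 by omega, r2, r3,
      t2, t1, r1, show m + 2 - 1 = m + 1 by omega]
    push_cast
    rw [show (m : K) + 2 = m + 1 + 1 by ring]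
  have g00 : (g (m + 2) r a).coeff 0 = 1 := by
    rw [G0, cXC0, c0]; simp
  have g10 : (g (m + 2) r a).coeff 1 = m + 3 := by
    rw [G0, cXCs, c0, c1]; push_cast; simp; ring
  have g20 : (g (m + 2) r a).coeff 2 = (m + 3) * (m + 2) / 2 := by
    rw [G0, cXCs, c1, c2]; push_cast; simp; ring
  have g01 : (g (m + 2) r (a + 1)).coeff 0 = 2 := by
    rw [G1, cXC0, c0]; simp
  have g11 : (g (m + 2) r (a + 1)).coeff 1 = 2 * m + 5 := by
    rw [G1, cXCs, c0, c1]; push_cast; simp; ring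
  have g21 : (g (m + 2) r (a + 1)).coeff 2 = (m + 2) ^ 2 := by
    rw [G1, cXCs, c1, c2]; push_cast; simp; ring
  have g02 : (g (m + 2) r (a + 2)).coeff 0 = 0 := by
    rw [G2, cX0]
  have g12 : (g (m + 2) r (a + 2)).coeff 1 = 2 ^ (m + 2) := by
    rw [G2, cXs, c0]
  have g22 : (g (m + 2) r (a + 2)).coeff 2 = 2 ^ (m + 1) * (m + 2) := by
    rw [G2, cXs, c1]; push_cast; ring
  have h00 : (h (m + 2) r τ a).coeff 0 = 2 * (m + 2) := by
    rw [H0, cXC0, coeff_C_mul, c0]; push_cast; simp; ring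
  have h10 : (h (m + 2) r τ a).coeff 1 = 2 * (m + 2) * (m + 2) := by
    rw [H0, cXCs, coeff_C_mul, coeff_C_mul, c0, c1]; push_cast; simp; ring
  have h20 : (h (m + 2) r τ a).coeff 2 = (m + 2) * (m + 2) * (m + 1) := by
    rw [H0, cXCs, coeff_C_mul, coeff_C_mul, c1, c2']; push_cast; simp; ring
  have h01 : (h (m + 2) r τ (a + 1)).coeff 0 = - 2 * (m + 1) := by
    rw [H1, coeff_add, cXC0, coeff_C_mul, coeff_C_mul, c0, c0]; push_cast; simp; ring
  have h11 : (h (m + 2) r τ (a + 1)).coeff 1 = - (m + 2) * (2 * m + 1) := by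
    rw [H1, coeff_add, cXCs, coeff_C_mul, coeff_C_mul, coeff_C_mul, c0, c1, c1]
    push_cast; simp; ring
  have h21 : (h (m + 2) r τ (a + 1)).coeff 2 = - (m + 2) * (m + 1) * m := by
    rw [H1, coeff_add, cXCs, coeff_C_mul, coeff_C_mul, coeff_C_mul, c1, c2, c2']
    push_cast; simp; ring
  have hq : ((1 : K) / 2) ^ (m + 2) * 2 ^ (m + 2) = 1 := by
    rw [← mul_pow]; norm_num
  have h02 : (h (m + 2) r τ (a + 2)).coeff 0 = - 1 := by
    rw [H2, coeff_add, cX0, coeff_C_mul, c0]; simp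
  have h12 : (h (m + 2) r τ (a + 2)).coeff 1 = - 3 / 2 * (m + 2) := by
    rw [H2, coeff_add, cXs, coeff_C_mul, coeff_C_mul, c0, c1]
    push_cast
    have : ((1 : K) / 2) ^ (m + 2) * 2 ^ (m + 1) = 1 / 2 := by
      have h3 : ((1 : K) / 2) ^ (m + 2) * 2 ^ (m + 1) * 2 = 1 := by
        rw [mul_assoc, ← pow_succ]; exact hq
      exact eq_div_of_mul_eq h2 h3
    have h5 : ((m : K) + 1 + 1) * -(1 / 2) ^ (m + 2) * 2 ^ (m + 1)
        = - (((m : K) + 1 + 1) * ((1 / 2) ^ (m + 2) * 2 ^ (m + 1))) := by ring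
    rw [h5, this]; simp; ring
  have h22 : (h (m + 2) r τ (a + 2)).coeff 2 = - 3 / 4 * (m + 2) * (m + 1) := by
    rw [H2, coeff_add, cXs, coeff_C_mul, coeff_C_mul, c1, c2]
    push_cast
    have : ((1 : K) / 2) ^ (m + 2) * 2 ^ m = 1 / 4 := by
      have h3 : ((1 : K) / 2) ^ (m + 2) * 2 ^ m * 4 = 1 := by
        have h4 : (4 : K) = 2 * 2 := by norm_num
        rw [mul_assoc, h4, ← mul_assoc (2 ^ m : K) 2 2, ← pow_succ, ← pow_succ]; exact hq
      exact eq_div_of_mul_eq (by norm_num) h3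
    have h5 : ((m : K) + 1 + 1) * -(1 / 2) ^ (m + 2) * (2 ^ m * ((m : K) + 1))
        = - (((m : K) + 1 + 1) * ((m : K) + 1) * ((1 / 2) ^ (m + 2) * 2 ^ m)) := by ring
    rw [h5, this]; simp; ring
  have hne : ∀ j, (∀ i ≤ 2, σ i ≠ j) → j ≠ a ∧ j ≠ a + 1 ∧ j ≠ a + 2 := by
    intro j hj
    refine ⟨fun e => hj 0 (by omega) (by rw [s0, e]), fun e => hj 1 (by omega) (by rw [s1, e]),
      fun e => hj 2 (by omega) (by rw [s2, e])⟩
  refine ⟨r, τ, ⟨?_, ?_, ?_, ?_, ?_, ?_⟩⟩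
  · intro j hj
    obtain ⟨n1, n2, n3⟩ := hne j hj
    simp only [r, n1, n2, n3, if_false]
  · intro j hj
    obtain ⟨n1, n2, n3⟩ := hne j hj
    simp only [τ, n1, n2, n3, if_false]
  · intro l hl
    rw [Finset.sum_range_succ, Finset.sum_range_succ, Finset.sum_range_succ, Finset.sum_range_zero,
      s0, s1, s2]
    interval_cases l
    · rw [g00, g01, g02, t0, t1]; ring
    · rw [g10, g11, g12, t0, t1, t2]
      have : (2 : K) ^ (m + 2) * -(1 / 2) ^ (m + 2) = -1 := by rw [mul_neg, mul_comm, hq]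
      rw [this]; ring
  · unfold dt
    rw [Matrix.det_fin_three]
    simp only [Matrix.of_apply, Fin.isValue, Fin.val_zero, Fin.val_one, Fin.val_two]
    rw [s0, s1, s2, g00, g01, g02, g10, g11, g12, g20, g21, g22]
    have : (1 : K) * (2 * m + 5) * (2 ^ (m + 1) * (m + 2)) - 1 * 2 ^ (m + 2) * (m + 2) ^ 2
        - 2 * (m + 3) * (2 ^ (m + 1) * (m + 2)) + 2 * 2 ^ (m + 2) * ((m + 3) * (m + 2) / 2)
        + 0 * (m + 3) * (m + 2) ^ 2 - 0 * (2 * m + 5) * ((m + 3) * (m + 2) / 2)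
        = 2 ^ (m + 1) * (m + 2) := by
      ring
    rw [this]
    have h6 : (m : K) + 2 ≠ 0 := by
      have : (m : K) + 2 = m + 1 + 1 := by ring
      rw [this]; exact hm2
    exact mul_ne_zero (pow_ne_zero _ h2) h6
  · unfold dt
    rw [Matrix.det_fin_three]
    simp only [Matrix.of_apply, Fin.isValue, Fin.val_zero, Fin.val_one, Fin.val_two]
    rw [s0, s1, s2, h00, h01, h02, h10, h11, h12, h20, h21, h22]
    have h6 : (m : K) + 2 ≠ 0 := by
      have : (m : K) + 2 = m + 1 + 1 := by ring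
      rw [this]; exact hm2
    have : (2 * ((m : K) + 2)) * (-(m + 2) * (2 * m + 1)) * (-3 / 4 * (m + 2) * (m + 1))
        - 2 * (m + 2) * (-3 / 2 * (m + 2)) * (-(m + 2) * (m + 1) * m)
        - -2 * (m + 1) * (2 * (m + 2) * (m + 2)) * (-3 / 4 * (m + 2) * (m + 1))
        + -2 * (m + 1) * (-3 / 2 * (m + 2)) * ((m + 2) * (m + 2) * (m + 1))
        + -1 * (2 * (m + 2) * (m + 2)) * (-(m + 2) * (m + 1) * m)
        - -1 * (-(m + 2) * (2 * m + 1)) * ((m + 2) * (m + 2) * (m + 1))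
        = (m + 2) ^ 3 * (m + 1) / 2 := by ring
    rw [this]
    exact div_ne_zero (mul_ne_zero (pow_ne_zero _ h6) hm1) h2
  · intro i hi
    interval_cases i
    · rw [s0, t0]; exact h2
    · rw [s1, t1]; exact neg_ne_zero.mpr one_ne_zero
    · rw [s2, t2]; exact neg_ne_zero.mpr (pow_ne_zero _ (div_ne_zero one_ne_zero h2))

end Pool.Agent.W803.HP
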