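import Mathlib
import Pool.Agent.W560.HP.Stm

/-! HP-BC2: adjoining algebraic elements. -/

set_option autoImplicit false

namespace Pool.Agent.W803.HP

open Polynomial IntermediateField
open W560.HP

section
variable {A B Ω : Type} [Field A] [CharZero A] [Field B] [Field Ω] [Algebra A B] [Algebra B Ω]
  [Algebra A Ω] [IsScalarTower A B Ω]

omit [CharZero A] in
/-- the degree over `A` and over `B` is the same -/
theorem minpoly_deg (hAB : ∀ x : B, IsAlgebraic A x → x ∈ Set.range (algebraMap A B)) (γ : Ω)
    (hγ : IsIntegral A γ) : (minpoly A γ).natDegree = (minpoly B γ).natDegree := by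
  have hγB : IsIntegral B γ := hγ.tower_top
  have hdvd : minpoly B γ ∣ (minpoly A γ).map (algebraMap A B) := minpoly.dvd_map_of_isScalarTower A B γ
  have hlift : minpoly B γ ∈ lifts (algebraMap A B) := by
    rw [lifts_iff_coeff_lifts]
    intro i
    have := isIntegral_coeff_of_dvd (minpoly A γ) (minpoly B γ) (minpoly.monic hγ)
      (minpoly.monic hγB) hdvd i
    exact hAB _ this.isAlgebraic
  obtain ⟨p, hp1, hp2, hp3⟩ := lifts_and_natDegree_eq_and_monic hlift (minpoly.monic hγB)
  apply le_antisymm
  · rw [← hp2]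
    have hroot : aeval γ p = 0 := by
      have : aeval γ (p.map (algebraMap A B)) = 0 := by
        rw [hp1]; exact minpoly.aeval B γ
      rwa [aeval_map_algebraMap] at this
    exact natDegree_le_of_dvd (minpoly.dvd A γ hroot) hp3.ne_zero
  · have h1 := natDegree_le_of_dvd hdvd ((minpoly.monic hγ).map _).ne_zero
    rwa [(minpoly.monic hγ).natDegree_map] at h1

theorem finrank_eq (hAB : ∀ x : B, IsAlgebraic A x → x ∈ Set.range (algebraMap A B))
    (S : Set Ω) (hSf : S.Finite) (hS : ∀ s ∈ S, IsAlgebraic A s) :
    Module.finrank A (adjoin A S) = Module.finrank B (adjoin B S) := by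
  have : Finite S := hSf
  have hfd : FiniteDimensional A (adjoin A S) :=
    finiteDimensional_adjoin fun x hx => (hS x hx).isIntegral
  obtain ⟨γ, hγ, e1⟩ : ∃ γ : Ω, IsIntegral A γ ∧ adjoin A S = A⟮γ⟯ := by
    obtain ⟨α, hα⟩ := Field.exists_primitive_element A (adjoin A S)
    have h1 : IsIntegral A α := Algebra.IsIntegral.isIntegral α
    refine ⟨(α : Ω), h1.map (adjoin A S).val, ?_⟩
    have h1 := congrArg lift hα
    rw [lift_top, lift_adjoin_simple] at h1
    exact h1.symm
  have e2 : adjoin B S = B⟮γ⟯ := by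
    apply le_antisymm
    · rw [adjoin_le_iff]
      intro s hs
      have h1 : s ∈ A⟮γ⟯ := by
        rw [← e1]; exact subset_adjoin A S hs
      have h2 : A⟮γ⟯ ≤ (B⟮γ⟯).restrictScalars A := by
        rw [adjoin_le_iff]
        intro y hy
        rw [Set.mem_singleton_iff.1 hy]
        exact mem_adjoin_simple_self B γ
      exact h2 h1
    · rw [adjoin_le_iff]
      intro y hy
      rw [Set.mem_singleton_iff.1 hy]
      have h1 : γ ∈ adjoin A S := by
        rw [e1]; exact mem_adjoin_simple_self A γ
      have h2 : adjoin A S ≤ (adjoin B S).restrictScalars A := by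
        rw [adjoin_le_iff]
        intro s hs
        exact subset_adjoin B S hs
      exact h2 h1
  rw [e2, e1, adjoin.finrank hγ, adjoin.finrank hγ.tower_top]
  exact minpoly_deg hAB _ hγ

end

theorem bc2 : S_BC2 := by
  intro A B Ω _ _ _ _ _ _ _ _ S hAB hS x hx hxa
  classical
  have hSf : (S : Set Ω).Finite := S.finite_toSet
  have hTf : (insert x (S : Set Ω)).Finite := hSf.insert x
  have hT : ∀ s ∈ insert x (S : Set Ω), IsAlgebraic A s := by
    rintro s (rfl | hs)
    · exact hxa
    · exact hS s hs
  have h1 := finrank_eq (A := A) (B := B) hAB (S : Set Ω) hSf (fun s hs => hS s hs)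
  have h2 := finrank_eq (A := A) (B := B) hAB (insert x (S : Set Ω)) hTf hT
  have h3 : adjoin B (insert x (S : Set Ω)) = adjoin B (S : Set Ω) := by
    apply le_antisymm
    · rw [adjoin_le_iff]
      rintro s (rfl | hs)
      · exact hx
      · exact subset_adjoin B _ hs
    · exact adjoin.mono B _ _ (Set.subset_insert _ _)
  rw [h3, ← h1] at h2
  have : Finite (insert x (S : Set Ω) : Set Ω) := hTf
  have hfd : FiniteDimensional A (adjoin A (insert x (S : Set Ω))) :=
    finiteDimensional_adjoin fun s hs => (hT s hs).isIntegral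
  have h4 : adjoin A (S : Set Ω) = adjoin A (insert x (S : Set Ω)) :=
    eq_of_le_of_finrank_eq (adjoin.mono A _ _ (Set.subset_insert _ _)) h2.symm
  rw [h4]
  exact subset_adjoin A _ (Set.mem_insert _ _)

end Pool.Agent.W803.HP
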